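import Pool.Agent.Helper89.GP.GoalsC

/-! Project GP, part KSA: the Kahn-Saks theorem with the constant 3/11 from the pair inequalities. -/

namespace Pool.Agent.Helper75.GP

open Finset Pool.Agent.Helper89.GP

theorem df_ge_one {n : ℕ} {R : Fin n → Fin n → Prop} {u v : Fin n} (hne : (LX R).Nonempty)
    (h : ∀ σ ∈ LX R, po σ u < po σ v) : 1 ≤ gp R u v := by
  unfold gp
  rw [← Ex_const hne 1]
  apply Ex_mono
  intro σ hσ
  have h1 := h σ hσ
  unfold df
  have h2 : (po σ u : ℝ) + 1 ≤ po σ v := by exact_mod_cast h1
  linarith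

/-- KSA. -/
theorem ksa (hPar : ParStmt) (hKsn : KsnStmt) (hFxd : FxdStmt) (hDcb : DcbStmt) : KsaStmt := by
  intro n R h2
  by_contra hcon
  push Not at hcon
  have hne : (LX R).Nonempty := Finset.card_pos.1 (by omega)
  have key : ∀ u v : Fin n, u ≠ v → hh R u ≤ hh R v → 1 ≤ hh R v - hh R u := by
    intro u v huv hle
    have e1 : gp R u v = hh R v - hh R u := (hDcb n R u v hne huv).2.2.2.1
    have e2 : gp R v u = hh R u - hh R v := (hDcb n R v u hne huv.symm).2.2.2.1
    by_cases hI : Inc R u v
    · by_cases h3 : An R u v < 3 / 11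
      · have h4 := hKsn _ _ _ _ (hPar n R u v hI) (by linarith)
        linarith
      · have h5 : An R v u < 3 / 11 := hcon u v huv (not_lt.1 h3)
        have h4 := hKsn _ _ _ _ (hPar n R v u hI.symm) (by linarith)
        linarith
    · by_cases h3 : ∃ σ ∈ LX R, po σ u < po σ v
      · have h4 : ∀ σ ∈ LX R, po σ u < po σ v := by
          intro σ hσ
          rcases po_lt_or (σ := σ) huv with h | h
          · exact h
          · exact absurd ⟨h3, σ, hσ, h⟩ hI
        have := df_ge_one hne h4
        linarith
      · push Not at h3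
        have h4 : ∀ σ ∈ LX R, po σ v < po σ u := by
          intro σ hσ
          rcases po_lt_or (σ := σ) huv with h | h
          · exact absurd h (not_lt.2 (h3 σ hσ))
          · exact h
        have := df_ge_one hne h4
        linarith
  obtain ⟨σ0, hσ0⟩ := hne
  have hn : 1 ≤ n := by
    by_contra hn
    have : n = 0 := by omega
    subst this
    have : (LX R).card ≤ 1 := by
      calc (LX R).card ≤ (univ : Finset (Equiv.Perm (Fin 0))).card := Finset.card_le_univ _
        _ = 1 := by simp
    omega
  have hne : (LX R).Nonempty := ⟨σ0, hσ0⟩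
  let e : Equiv.Perm (Fin n) := Tuple.sort (hh R)
  have hmono : Monotone (hh R ∘ e) := Tuple.monotone_sort (hh R)
  have hstep : ∀ (k : ℕ) (i j : Fin n), (j : ℕ) = i + k → (k : ℝ) ≤ hh R (e j) - hh R (e i) := by
    intro k
    induction k with
    | zero =>
      intro i j hij
      have : i = j := Fin.ext (by omega)
      subst this
      simp
    | succ k ih =>
      intro i j hij
      have hj : (j : ℕ) < n := j.isLt
      let j' : Fin n := ⟨i + k, by omega⟩
      have h1 := ih i j' rfl
      have h3 : j' < j := by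
        rw [Fin.lt_def]
        change (i : ℕ) + k < j
        omega
      have h4 : e j' ≠ e j := fun h => h3.ne (e.injective h)
      have h5 := key (e j') (e j) h4 (hmono h3.le)
      push_cast
      linarith
  have hlow : ∀ u, 0 ≤ hh R u := by
    intro u
    unfold hh
    rw [← Ex_const hne 0]
    exact Ex_mono fun σ _ => Nat.cast_nonneg _
  have hupp : ∀ u, hh R u ≤ (n : ℝ) - 1 := by
    intro u
    unfold hh
    rw [← Ex_const hne ((n : ℝ) - 1)]
    apply Ex_mono
    intro σ _
    have := po_lt_n σ u
    have h3 : (po σ u : ℝ) + 1 ≤ n := by exact_mod_cast this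
    linarith
  have hall : ∀ i : Fin n, hh R (e i) = ((i : ℕ) : ℝ) := by
    intro i
    have hi := i.isLt
    apply le_antisymm
    · have h1 := hstep (n - 1 - i) i ⟨n - 1, by omega⟩ (by
        change n - 1 = (i : ℕ) + (n - 1 - i)
        omega)
      have h3 := hupp (e ⟨n - 1, by omega⟩)
      have h4 : ((n - 1 - (i : ℕ) : ℕ) : ℝ) = (n : ℝ) - 1 - (i : ℕ) := by
        rw [Nat.cast_sub (by omega), Nat.cast_sub (by omega)]
        simp
      rw [h4] at h1
      linarith
    · have h1 := hstep i ⟨0, by omega⟩ i (by simp)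
      have h3 := hlow (e ⟨0, by omega⟩)
      linarith
  have := hFxd n R e hne hall
  omega

end Pool.Agent.Helper75.GP
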